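import Pool.Agent.X67.MC.Final

/-!
# MP_9c8b61_co, Q1: dense point sets with superlinear monotone path covers

There are `16`-dense `n`-point sets in general position for which every cover of the complete
geometric graph by monotone paths has at least `n ^ (5 / 4) / 16000` paths.

The set consists of about `√n` almost straight rows of about `√n` points each; the slopes of the
rows differ by at least `1 / (2 √n)`, and the perturbation which brings the points to general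
position is lacunary along each row. A monotone path can use edges inside the rows of total length
at most `O(n ^ (3 / 4))`, because the rows which are not almost orthogonal to the direction cost
height, while the total length of all edges inside the rows is of order `n ^ 2`.
-/

set_option autoImplicit false

namespace Pool.Agent.Results.MP_9c8b61_co.SuperlinearDense

open Pool.Agent.X67.MC

theorem exists_big {n : ℕ} (hn : 400 ≤ n) :
    ∃ A : Finset E2, A.card = n ∧ GenPos A ∧ Dense 16 A ∧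
      (n : ℝ) ^ (5 / 4 : ℝ) ≤ 16000 * mc A := by
  obtain ⟨m, hm⟩ : ∃ m, m = Nat.sqrt n := ⟨_, rfl⟩
  have hm1 : m * m ≤ n := by rw [hm]; exact Nat.sqrt_le n
  have hm2 : n < (m + 1) * (m + 1) := by rw [hm]; exact Nat.lt_succ_sqrt n
  obtain ⟨M, hM⟩ : ∃ M, M = m + 1 := ⟨_, rfl⟩
  rw [← hM] at hm2
  have hM1 : (M - 1) * (M - 1) ≤ n := by
    rw [hM, Nat.add_sub_cancel]
    exact hm1
  have hM20 : 20 < M := by
    by_contra hcon
    push Not at hcon
    have : M * M ≤ 20 * 20 := Nat.mul_le_mul hcon hcon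
    omega
  obtain ⟨K, hK⟩ : ∃ K, K = Nat.sqrt M := ⟨_, rfl⟩
  have hK1 : K * K ≤ M := by rw [hK]; exact Nat.sqrt_le M
  have hK2 : M < (K + 1) * (K + 1) := by rw [hK]; exact Nat.lt_succ_sqrt M
  have hK4 : 4 ≤ K := by
    by_contra hcon
    have h1 : K + 1 ≤ 4 := by omega
    have : (K + 1) * (K + 1) ≤ 4 * 4 := Nat.mul_le_mul h1 h1
    omega
  obtain ⟨A, h1, h2, h3, h4⟩ := exists_set hK4 hK1 hM1 hm2.le
  refine ⟨A, h1, h2, h3, ?_⟩
  have hMR : (20 : ℝ) < M := by exact_mod_cast hM20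
  have hKR : (4 : ℝ) ≤ K := by exact_mod_cast hK4
  have hK1R : (K : ℝ) * K ≤ M := by exact_mod_cast hK1
  have hK2R : (M : ℝ) ≤ 2 * K * K := by
    have : (M : ℝ) < (K + 1) * (K + 1) := by exact_mod_cast hK2
    nlinarith
  have hmc : (0 : ℝ) ≤ mc A := Nat.cast_nonneg _
  -- the bound for one path
  have hB : 2 * (4 * M * K + (8 * M / K + 1) * (5 * M)) ≤ 178 * ((M : ℝ) * K) := by
    have e1 : 8 * (M : ℝ) / K ≤ 16 * K := by
      rw [div_le_iff₀ (by positivity)]
      nlinarith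
    have e2 : (8 * (M : ℝ) / K + 1) * (5 * M) ≤ (16 * K + 1) * (5 * M) :=
      mul_le_mul_of_nonneg_right (by linarith) (by positivity)
    have e3 : (M : ℝ) ≤ M * K := by nlinarith
    nlinarith
  have ht : (M : ℝ) / 4 ≤ (((M - 1) / 3 : ℕ) : ℝ) := by
    have : M ≤ 4 * ((M - 1) / 3) := by omega
    have h5 : (M : ℝ) ≤ 4 * (((M - 1) / 3 : ℕ) : ℝ) := by exact_mod_cast this
    linarith
  have h5 : 3 * ((M : ℝ) / 4) ^ 4 ≤ mc A * (178 * ((M : ℝ) * K)) := by
    calc 3 * ((M : ℝ) / 4) ^ 4 ≤ 3 * (((M - 1) / 3 : ℕ) : ℝ) ^ 4 :=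
          mul_le_mul_of_nonneg_left (pow_le_pow_left₀ (by positivity) ht 4) (by norm_num)
      _ ≤ mc A * (2 * (4 * M * K + (8 * M / K + 1) * (5 * M))) := h4
      _ ≤ mc A * (178 * ((M : ℝ) * K)) := mul_le_mul_of_nonneg_left hB hmc
  have h6 : (M : ℝ) ^ 3 ≤ 16000 * mc A * K := by
    have e1 : (0 : ℝ) < M := by linarith
    have e2 : (M : ℝ) * M ^ 3 ≤ M * (16000 * mc A * K) := by
      have e3 : (0 : ℝ) ≤ mc A * (M * K) := by positivity
      nlinarith
    exact le_of_mul_le_mul_left e2 e1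
  have h7 : (n : ℝ) ^ (5 / 4 : ℝ) ≤ (M : ℝ) ^ (5 / 2 : ℝ) := by
    have e1 : (n : ℝ) ≤ (M : ℝ) ^ (2 : ℝ) := by
      have : (n : ℝ) ≤ M * M := by exact_mod_cast hm2.le
      rw [Real.rpow_two, pow_two]
      exact this
    calc (n : ℝ) ^ (5 / 4 : ℝ) ≤ ((M : ℝ) ^ (2 : ℝ)) ^ (5 / 4 : ℝ) :=
          Real.rpow_le_rpow (Nat.cast_nonneg n) e1 (by norm_num)
      _ = (M : ℝ) ^ (5 / 2 : ℝ) := by
          rw [← Real.rpow_mul (Nat.cast_nonneg M)]
          norm_num
  have h8 : (K : ℝ) * (M : ℝ) ^ (5 / 2 : ℝ) ≤ (M : ℝ) ^ 3 := by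
    have e1 : (K : ℝ) ≤ (M : ℝ) ^ (1 / 2 : ℝ) := by
      rw [← Real.sqrt_eq_rpow]
      apply Real.le_sqrt_of_sq_le
      nlinarith
    calc (K : ℝ) * (M : ℝ) ^ (5 / 2 : ℝ) ≤ (M : ℝ) ^ (1 / 2 : ℝ) * (M : ℝ) ^ (5 / 2 : ℝ) :=
          mul_le_mul_of_nonneg_right e1 (by positivity)
      _ = (M : ℝ) ^ 3 := by
          rw [← Real.rpow_add (by linarith), ← Real.rpow_natCast]
          norm_num
  have h9 : (K : ℝ) * (n : ℝ) ^ (5 / 4 : ℝ) ≤ K * (16000 * mc A) := by
    calc (K : ℝ) * (n : ℝ) ^ (5 / 4 : ℝ) ≤ K * (M : ℝ) ^ (5 / 2 : ℝ) :=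
          mul_le_mul_of_nonneg_left h7 (by positivity)
      _ ≤ (M : ℝ) ^ 3 := h8
      _ ≤ 16000 * mc A * K := h6
      _ = K * (16000 * mc A) := by ring
  exact le_of_mul_le_mul_left h9 (by positivity)

/-- **Q1 has a positive answer**: with `α = 16` there are `α`-dense `n`-point sets `A n` in
general position with `mc (A n) ≥ n ^ (5 / 4) / 16000`; in particular `mc (A n) / n → ∞`. -/
theorem result : ∃ α : ℝ, 0 < α ∧ ∃ A : ℕ → Finset E2,
    (∀ n ≥ 400, (A n).card = n ∧ GenPos (A n) ∧ Dense α (A n) ∧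
      (n : ℝ) ^ (5 / 4 : ℝ) / 16000 ≤ mc (A n)) ∧
    Filter.Tendsto (fun n => (mc (A n) : ℝ) / n) Filter.atTop Filter.atTop := by
  classical
  have key : ∀ n : ℕ, ∃ A : Finset E2, 400 ≤ n → (A.card = n ∧ GenPos A ∧ Dense 16 A ∧
      (n : ℝ) ^ (5 / 4 : ℝ) / 16000 ≤ mc A) := by
    intro n
    by_cases hn : 400 ≤ n
    · obtain ⟨A, h1, h2, h3, h4⟩ := exists_big hn
      exact ⟨A, fun _ => ⟨h1, h2, h3, by linarith⟩⟩
    · exact ⟨∅, fun h => absurd h hn⟩
  choose A hA using key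
  refine ⟨16, by norm_num, A, fun n hn => hA n hn, ?_⟩
  have h1 : Filter.Tendsto (fun n : ℕ => (n : ℝ) ^ (1 / 4 : ℝ) / 16000) Filter.atTop
      Filter.atTop :=
    ((tendsto_rpow_atTop (by norm_num)).comp tendsto_natCast_atTop_atTop).atTop_div_const
      (by norm_num)
  refine Filter.tendsto_atTop_mono' _ ?_ h1
  filter_upwards [Filter.eventually_ge_atTop 400] with n hn
  have h2 := (hA n hn).2.2.2
  have hn0 : (0 : ℝ) < n := by
    have : 0 < n := by omega
    exact_mod_cast this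
  rw [le_div_iff₀ hn0]
  calc (n : ℝ) ^ (1 / 4 : ℝ) / 16000 * n = (n : ℝ) ^ (5 / 4 : ℝ) / 16000 := by
        have : (n : ℝ) ^ (5 / 4 : ℝ) = (n : ℝ) ^ (1 / 4 : ℝ) * n := by
          rw [← Real.rpow_add_one hn0.ne']
          norm_num
        rw [this]
        ring
    _ ≤ _ := h2

end Pool.Agent.Results.MP_9c8b61_co.SuperlinearDense
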